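import Pool.Agent.Q24.Cas.Thm
import Pool.Agent.Q24.Cas.Ex

/-!
# Continuous association schemes: (T1) implies (T2) in the commutative case, and not in general
-/

set_option autoImplicit false

open MeasureTheory

namespace Pool.Agent.Results.MP_3f01e7_al.CommutativeImplies

open Q24.Cas

theorem result :
    (∀ (X D : Type) [TopologicalSpace X] [T2Space X] [LocallyCompactSpace X]
      [SecondCountableTopology X] [MeasurableSpace X] [BorelSpace X]
      [TopologicalSpace D] [T2Space D] [LocallyCompactSpace D]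
      [SecondCountableTopology D] [MeasurableSpace D] [BorelSpace D] (C : CAS X D),
      C.Comm → C.T1 → C.T2 ∧
        ∀ ω : Measure X, IsOmega C.H C.K ω →
          ∃ ν : Measure D, C.H.LeftHaar ν ∧ C.Formula ω ν) ∧
    ∃ C : CAS (ℝ × ℝ) (ℝ × ℝ), C.T1 ∧ ¬ C.T2 := by
  refine ⟨?_, Ex.C, Ex.t1, Ex.not_t2⟩
  intro X D _ _ _ _ _ _ _ _ _ _ _ _ C hc hT
  refine ⟨?_, fun ω hω => t1_t2 C hc hT hω⟩
  obtain ⟨ω, hω⟩ := C.exists_omega
  obtain ⟨ν, h1, h2⟩ := t1_t2 C hc hT hω
  exact ⟨ω, ν, hω, h1, h2⟩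

end Pool.Agent.Results.MP_3f01e7_al.CommutativeImplies
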